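import Pool.Agent.U393.SA.Prod
import Pool.Agent.U393.SA.Kappa

/-!
# Families of abelian varieties on the images of a family over a positive base

Let `X` be a projective variety of dimension `d` over `ℂ`, and let `f i : X ⇢ ℙ^{N i}`, `i < k`, be
rational maps such that `X` is mapped birationally into the product of the projective spaces. Let `H i`
be the pull-back of a hyperplane to a model of `X`. For instance `k = 1` and `X ⊆ ℙ^N`.

Let `V` be any variety with a dominant rational map `V ⇢ X`, and let `V ⇢ W` be a dominant rational map
of finite degree to any variety `W`, such that the map `V ⇢ W × X` is injective on an open subset.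
(Otherwise replace `V` by its image in `W × X`.) The map `V ⇢ W` need not be compatible with any fibration
of `W`, and it need not be a Galois cover. Let `W_i` be the image of `V` in
`W × ℙ^{N 0} × ... × ℙ^{N (i - 1)}` and let `δ i` be the degree of `W_{i + 1}` over `W_i`. So the
product of all `δ i` is the degree of `V` over `W`, and for `k = 1` the number `δ 0` is this degree.
Suppose that `K_X - 2 ∑ (δ i - 1) H i` is big. For instance `X ⊆ ℙ^{d + 1}` is a smooth hypersurface of
degree more than `d + 2 δ 0`.

**Theorem.** (1) Let `F → B` be a family of almost homogeneous varieties of positive dimension (for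
instance of abelian varieties, of semi-abelian varieties, of rational curves, of homogeneous spaces) and
`F ⇢ W` a dominant rational map. After a base change with a variety `B' → B` of finite degree, it lifts
to a rational map `F' ⇢ V` such that the members of the family are mapped to the fibres of `V ⇢ X`.

(2) For each class of families of almost homogeneous varieties which is closed under base change, for
instance for the families of abelian varieties: `W` is swept out by members of the class (by images of
the same positive dimension), if and only if `V` is, if and only if `V` is swept out by such images in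
the fibres of `V ⇢ X`.

(3) If `V = X × Y` then `W` is swept out by members of the class if and only if `Y` is, and
`κ(W) = dim X + κ(Y)`. In particular, `0 ≤ κ(W) ≤ dim W - 1` if and only if `0 ≤ κ(Y) ≤ dim Y - 1`, and
`W` satisfies the conjecture that this implies that it is rationally swept out by abelian varieties, if
and only if `Y` does.

So Q1 for the single variety `Y` is equivalent to Q1 for each one of the varieties `W` which are
dominated by the products `X × Y` in this way, where `X` is of any dimension. In particular, Q1 has a
positive answer for all these varieties `W`, in all dimensions, if `dim Y ≤ 2`, as surfaces of Kodaira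
dimension `0` or `1` are covered by elliptic curves. (The examples are not part of the Lean proof.)

A subvariety has a finite cover which is birational to the abelian variety `A` if and only if there is a
dominant rational map of finite degree from `A` to the subvariety: take the normalisation of the
subvariety in the function field of `A`. So for the class of the families of abelian varieties the
condition `SweptOut` is the one of the problem.

Proof. Let `R` be the function field of `F` and `M` the one of `B`, let `K`, `L`, `U` be those of `W`, `V`,
`X`, let `Ω` be a Galois extension of `K` containing `L`, and `Ω'` a finite extension of `R` containing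
`Ω`. The product of all conjugates over `K` of the pull-back of an `m`-canonical form `θ` on `X` is a
tensor, a function of `d` vector fields. Multiplied by a fixed power of the discriminant of a basis of
`L` over `K`, consisting of monomials in the functions on `X`, it is a regular tensor on `W`, for all
sections `θ` of `m (K_X - 2 ∑ (δ i - 1) H i)`; so it is regular on `F`, too. Evaluate it on
`d` generic combinations of the vertical vector fields `D_j` of the family and of lifts of vector fields
on `B`. The part of the highest degree in the `D_j` does not depend on the choice of the lifts. At each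
prime divisor there are regular lifts, so this part is a function on `F` which is regular along all
the prime divisors of the generic member: it is algebraic over `M`. The quotient of these functions for
the forms `(g + c) θ` and `θ`, where `g` is a quotient of two sections and `c` a constant, is the
product of `h(g) + c` over the Galois group; so these products are algebraic over `M` for all `c`, and so
are all `h(g)`. Hence `U` is algebraic over `M`. As `L` is generated by `K` and `U`, it is contained in
the field generated by `R` and a finite extension of `M`. The Kodaira dimension: see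
`Pool.Agent.U192.PE.kod_prod`.
-/

set_option autoImplicit false
set_option linter.overlappingInstances false

open FF Module
open Pool.Agent.W602.GT (IsPluri Divisorial DerReg KodGe)
open Pool.Agent.U393.SA (AlmostHomogeneous IsClass SweptOut)

namespace Pool.Agent.Results.MP_501976_ag.SweepingTransfer

/-- The Kodaira dimension of the smooth projective varieties of dimension `n` with the function field
`K` is at least `h`: there are pluricanonical forms of some weight, regular at all prime divisors,
with `h` algebraically independent ratios. -/
def KappaGe (K : Type) [Field K] [Algebra ℂ K] (n h : ℕ) : Prop :=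
  KodGe ℂ K n (fun _ => False) h

/-- The Kodaira dimension is at least `0` and at most `n - 1`. -/
def Intermediate (K : Type) [Field K] [Algebra ℂ K] (n : ℕ) : Prop :=
  KappaGe K n 0 ∧ ¬ KappaGe K n n

/-- The order of the poles along `P` of the functions in the finite set `Y`: the multiplicity along `P`
of the pull-back of a hyperplane under the rational map with the coordinates `1` and `Y`. -/
noncomputable def poleOrder {U : Type} [Field U] [Algebra ℂ U] (Y : Finset U) (P : Place ℂ U) : ℕ :=
  Y.sup fun z => (-P.ord z).toNat

/-- The functions on `X` as functions on `V`. -/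
def onV {L : Type} [Field L] [Algebra ℂ L] {U : IntermediateField ℂ L} (Y : Finset U) : Finset L :=
  Y.map (Function.Embedding.subtype fun z => z ∈ U)

/-- The function field of the image `W_j` of `V` in the product of `W` and the first `j` projective
spaces. `K` and `L` are the function fields of `W` and `V`, and `X i` is the set of the affine
coordinates of the `i`-th rational map. -/
def Img {L : Type} [Field L] [Algebra ℂ L] {U : IntermediateField ℂ L} (K : Type) [Field K]
    [Algebra K L] {k : ℕ} (X : Fin k → Finset U) (j : ℕ) : IntermediateField K L :=
  IntermediateField.adjoin K {z | ∃ i : Fin k, i.val < j ∧ z ∈ onV (X i)}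

/-- The degree `δ i` of `W_{i + 1}` over `W_i`. -/
noncomputable def deg {L : Type} [Field L] [Algebra ℂ L] {U : IntermediateField ℂ L} (K : Type)
    [Field K] [Algebra K L] {k : ℕ} (X : Fin k → Finset U) (i : Fin k) : ℕ :=
  finrank (Img K X i) (IntermediateField.adjoin (Img K X i) (onV (X i) : Set L))

/-- `θ` is a section of `m K_X - H`, where `U` is the function field of the variety `X`, of dimension
`d`, and `H` has the multiplicity `b P` at `P`: the order of the `m`-canonical form `θ` along each prime
divisor `P` over `X` is at least `b P`. -/
def IsSection {U : Type} [Field U] [Algebra ℂ U] (d m : ℕ) (b : Place ℂ U → ℤ)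
    (θ : (Fin d → Derivation ℂ U U) → U) : Prop :=
  IsPluri m θ ∧ ∀ P : Place ℂ U, Divisorial d P → ∀ G : Fin d → Derivation ℂ U U,
    (∀ i, DerReg P (G i)) → θ G ≠ 0 → b P ≤ P.ord (θ G)

/-- **Families of almost homogeneous varieties on the images of a family over a positive base.** Let `L`
be the function field of a variety `V` of dimension `N`, and `U ⊆ L` the function field of the variety
`X` of dimension `d`; let `U` be generated by the finitely many coordinates in the sets `X i`. Let
`K ⊆ L` be the function field of a variety `W`, the extension being finite, such that `L` is generated by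
`K` and `U`. Suppose that there are sections `θ 0, ..., θ d` of `m (K_X - 2 ∑ (δ i - 1) H i)`, `m ≥ 1`,
whose ratios are algebraically independent.

(1) Let `M ⊆ R` be finitely generated extensions of `ℂ` such that the variety over `M` with the function
field `R` is almost homogeneous of dimension `r + 1`, and `φ : K → R` an embedding. Then there are
extensions `R'` of `R` and `M' ⊆ R'` of `M`, where `M'` is finite over `M` and `R'` is generated by `R` and
`M'`, and an embedding `ψ` of `L` into `R'` which extends `φ` and maps `U` into `M'`.

(2) Let `C` be a class of families of almost homogeneous varieties which is closed under base change.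
Then `W` is swept out by members of `C` if and only if `V` is, if and only if `V` is swept out by
members of `C` on which the functions on `X` are constant.

(3) If moreover `L` is generated by `U` and the function field `T` of a variety `Y` of dimension
`n = N - d` (i.e. `V` is the product of `X` and `Y`), then `κ(W) = d + κ(Y)`, and `W` is swept out by
members of `C` if and only if `Y` is. The Kodaira dimension of `W` is between `0` and `dim W - 1` if and
only if the one of `Y` is between `0` and `dim Y - 1`, and this implies that `W` is swept out by
members of `C` if and only if it implies this for `Y`. -/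
theorem result {L : Type} [Field L] [Algebra ℂ L] [Algebra.EssFiniteType ℂ L]
    (U : IntermediateField ℂ L) {d N m k : ℕ} (hU : Algebra.trdeg ℂ U = d)
    (hL : Algebra.trdeg ℂ L = N) (X : Fin k → Finset U)
    (hX : IntermediateField.adjoin ℂ (⋃ i, (X i : Set U)) = ⊤)
    (K : Type) [Field K] [Algebra ℂ K] [Algebra K L] [IsScalarTower ℂ K L] [FiniteDimensional K L]
    (hinj : IntermediateField.adjoin K (U : Set L) = ⊤)
    (hm : 1 ≤ m) (θ : Fin (d + 1) → (Fin d → Derivation ℂ U U) → U)
    (hθ : ∀ j, IsSection d m
      (fun P => ∑ i, 2 * m * ((deg K X i : ℤ) - 1) * poleOrder (X i) P) (θ j))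
    (D : Fin d → Derivation ℂ U U) (hD : θ 0 D ≠ 0)
    (hind : AlgebraicIndependent ℂ fun j : Fin d => θ j.succ D / θ 0 D) :
    (∀ (M R : Type) [Field M] [Field R] [Algebra ℂ M] [Algebra ℂ R] [Algebra M R]
      [IsScalarTower ℂ M R] [Algebra.EssFiniteType ℂ M] [Algebra.EssFiniteType ℂ R] (r : ℕ)
      (φ : K →ₐ[ℂ] R), Algebra.trdeg M R = (r + 1 : ℕ) → AlmostHomogeneous M R r →
      ∃ (R' : Type) (_ : Field R') (_ : Algebra R R') (_ : Algebra M R')
        (_ : IsScalarTower M R R') (ψ : L →+* R') (M' : IntermediateField M R'),
        FiniteDimensional M M' ∧ IntermediateField.adjoin R (M' : Set R') = ⊤ ∧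
        (∀ z : K, ψ (algebraMap K L z) = algebraMap R R' (φ z)) ∧ ∀ u ∈ U, ψ u ∈ M') ∧
    (∀ C : ∀ (M R : Type) [Field M] [Field R] [Algebra M R], ℕ → Prop, IsClass C →
      [SweptOut C (⊥ : IntermediateField ℂ K), SweptOut C (⊥ : IntermediateField ℂ L),
        SweptOut C U].TFAE) ∧
    ∀ (T : IntermediateField ℂ L) (n : ℕ), U ⊔ T = ⊤ → Algebra.trdeg ℂ T = n → N = d + n →
      (∀ h : ℕ, KappaGe K N (d + h) ↔ KappaGe T n h) ∧ (KappaGe K N 0 → KappaGe K N d) ∧
      (Intermediate K N ↔ Intermediate T n) ∧
      ∀ C : ∀ (M R : Type) [Field M] [Field R] [Algebra M R], ℕ → Prop, IsClass C →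
        (SweptOut C (⊥ : IntermediateField ℂ K) ↔ SweptOut C (⊥ : IntermediateField ℂ T)) ∧
        ((Intermediate K N → SweptOut C (⊥ : IntermediateField ℂ K)) ↔
          (Intermediate T n → SweptOut C (⊥ : IntermediateField ℂ T))) := by
  have hUe : Algebra.EssFiniteType ℂ U := Pool.Agent.N999.SX.ess_any U
  have hK : Algebra.trdeg ℂ K = N := Pool.Agent.Y184.NT.trdeg_below (K := L) hL
  have hθ' : ∀ j, ∀ P : Place ℂ U, Divisorial d P → ∀ G : Fin d → Derivation ℂ U U,
      (∀ i, DerReg P (G i)) → θ j G = 0 ∨
      ∑ i, 2 * (m : ℤ) * ((U192.NM.dg K (U192.PB.up U X) i : ℤ) - 1) * U192.NM.pol (X i) P ≤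
        P.ord (θ j G) := by
    intro j P hP G hG
    by_cases h0 : θ j G = 0
    · exact Or.inl h0
    · exact Or.inr ((hθ j).2 P hP G hG h0)
  refine ⟨?_, ?_, ?_⟩
  · intro M R _ _ _ _ _ _ _ _ r φ hR hH
    obtain ⟨S, D', hD'⟩ := hH
    obtain ⟨b, hb⟩ := U393.SA.exists_trdeg (k := ℂ) (M := M)
    let iK : Algebra K R := φ.toRingHom.toAlgebra
    have t1 : IsScalarTower ℂ K R := IsScalarTower.of_algebraMap_eq fun c => (φ.commutes c).symm
    obtain ⟨R', i1, i2, i3, t2, -, ψ, M', h1, h2, h3, h4⟩ := U393.SA.lift U hU X hX hK hinj
      (fun j => (hθ j).1) hθ' hD hind hb hR hD'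
    exact ⟨R', i1, i2, i3, t2, ψ, M', h1, h2, h3, h4⟩
  · intro C hC
    have h1 : SweptOut C (⊥ : IntermediateField ℂ K) → SweptOut C U := fun h =>
      U393.SA.sweep_lift U hU X hX hK hinj (fun j => (hθ j).1) hθ' hD hind hC h
    have h2 : SweptOut C (⊥ : IntermediateField ℂ L) → SweptOut C (⊥ : IntermediateField ℂ K) :=
      fun h => U393.SA.sweep_down _ h
    have h3 : SweptOut C U → SweptOut C (⊥ : IntermediateField ℂ L) := by
      rintro ⟨M, R, i1, i2, i3, i4, i5, r, φ, hs⟩
      refine ⟨M, R, i1, i2, i3, i4, i5, r, φ, hs.tower, hs.fgM, hs.fgR, hs.dim, hs.mem,
        fun u hu => ?_, hs.finite⟩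
      rw [IntermediateField.mem_bot] at hu
      obtain ⟨c, rfl⟩ := hu
      have t0 := hs.tower
      refine ⟨algebraMap ℂ M c, ?_⟩
      rw [AlgHom.commutes, ← IsScalarTower.algebraMap_apply ℂ M R]
    tfae_have 1 → 3 := h1
    tfae_have 3 → 2 := h3
    tfae_have 2 → 1 := h2
    tfae_finish
  · rintro T n hUT hT rfl
    have hTe : Algebra.EssFiniteType ℂ T := Pool.Agent.N999.SX.ess_any T
    have hup : ∀ h : ℕ, KappaGe T n h → KappaGe K (d + n) (d + h) := fun h hk =>
      U393.SA.kappa_up hm hUT hU hT hL hinj X hX (α := θ)
        (fun j => ⟨(hθ j).1, fun P hP G hG => by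
          by_cases h0 : θ j G = 0
          · exact Or.inl h0
          · refine Or.inr ⟨1, Finset.mem_singleton_self _, one_ne_zero, ?_⟩
            rw [P.ord_one, add_zero]
            exact (hθ j).2 P hP G hG h0⟩) hD hind hk
    have hdown : ∀ h : ℕ, KappaGe K (d + n) h → KappaGe T n (h - d) := fun h hk =>
      U393.SA.kappa_down (L := L) hUT hU hT hL hk
    have h1 : ∀ h : ℕ, KappaGe K (d + n) (d + h) ↔ KappaGe T n h := fun h =>
      ⟨fun hk => by
        have h2 := hdown _ hk
        rwa [Nat.add_sub_cancel_left] at h2, hup h⟩
    have h2 : KappaGe K (d + n) 0 → KappaGe T n 0 := fun hk => by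
      have h3 := hdown _ hk
      rwa [Nat.zero_sub] at h3
    have h3 : KappaGe K (d + n) 0 ↔ KappaGe T n 0 :=
      ⟨h2, fun hk => Pool.Agent.R882.UA.kod_mono (hup 0 hk) (Nat.zero_le _)⟩
    have h4 : Intermediate K (d + n) ↔ Intermediate T n := by
      unfold Intermediate
      rw [h3, h1 n]
    refine ⟨h1, fun hk => ?_, h4, fun C hC => ?_⟩
    · have h5 := hup 0 (h2 hk)
      rwa [add_zero] at h5
    · have h5 : SweptOut C (⊥ : IntermediateField ℂ K) ↔ SweptOut C (⊥ : IntermediateField ℂ T) :=
        ⟨fun h => U393.SA.prod_down U T hUT
            (U393.SA.sweep_lift U hU X hX hK hinj (fun j => (hθ j).1) hθ' hD hind hC h),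
          fun h => U393.SA.sweep_down U (U393.SA.prod_up U T hUT hU hT hL hC h)⟩
      refine ⟨h5, ?_⟩
      rw [h4, h5]

end Pool.Agent.Results.MP_501976_ag.SweepingTransfer
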